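import Mathlib.Analysis.Calculus.ContDiff.Deriv
import Mathlib.Analysis.Calculus.Deriv.Pow
import Mathlib.Analysis.Calculus.Deriv.Mul
import Mathlib.MeasureTheory.Integral.IntervalIntegral.FundThmCalculus
import Mathlib.Algebra.Polynomial.Roots
import Mathlib.Tactic

/-!
A parabola with many tiny isolated wiggles: the total curvature is as large as we please, but every
line meets the graph in at most 14 points.
-/

namespace Pool.Agent.Results.MP_d93447_an.ParabolaWiggles

open Set Polynomial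

/-- Positive part. -/
noncomputable def m (u : ℝ) : ℝ := max 0 u

theorem m_nonneg (u : ℝ) : 0 ≤ m u := le_max_left _ _
theorem m_of_nonneg {u : ℝ} (h : 0 ≤ u) : m u = u := max_eq_right h
theorem m_of_nonpos {u : ℝ} (h : u ≤ 0) : m u = 0 := max_eq_left h

theorem m_continuous : Continuous m := continuous_const.max continuous_id

theorem m_le_abs (u : ℝ) : m u ≤ |u| := by
  rcases le_total 0 u with h | h
  · rw [m_of_nonneg h]; exact le_abs_self u
  · rw [m_of_nonpos h]; exact abs_nonneg u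

theorem hasDerivAt_m_pow (n : ℕ) (u : ℝ) :
    HasDerivAt (fun u => m u ^ (n + 2)) ((n + 2 : ℕ) * m u ^ (n + 1)) u := by
  rcases lt_trichotomy u 0 with h | h | h
  · rw [m_of_nonpos h.le, zero_pow (by omega), mul_zero]
    have : (fun u => m u ^ (n + 2)) =ᶠ[nhds u] fun _ => (0 : ℝ) := by
      filter_upwards [gt_mem_nhds h] with v hv
      rw [m_of_nonpos hv.le, zero_pow (by omega)]
    exact (hasDerivAt_const u (0 : ℝ)).congr_of_eventuallyEq this
  · subst h
    rw [m_of_nonpos le_rfl, zero_pow (by omega), mul_zero]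
    rw [hasDerivAt_iff_isLittleO]
    have h0 : m 0 = 0 := m_of_nonpos le_rfl
    simp only [sub_zero, smul_zero, h0, zero_pow (show n + 2 ≠ 0 by omega)]
    rw [Asymptotics.isLittleO_iff]
    intro c hc
    have : ∀ᶠ v : ℝ in nhds 0, |v| < min c 1 := by
      have := Metric.ball_mem_nhds (0 : ℝ) (ε := min c 1) (lt_min hc one_pos)
      filter_upwards [this] with v hv
      simpa [Real.dist_eq] using hv
    filter_upwards [this] with v hv
    have h1 : m v ≤ |v| := m_le_abs v
    have h2 : |v| < c := lt_of_lt_of_le hv (min_le_left _ _)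
    have h3 : |v| < 1 := lt_of_lt_of_le hv (min_le_right _ _)
    rw [Real.norm_eq_abs, Real.norm_eq_abs, abs_of_nonneg (pow_nonneg (m_nonneg v) _)]
    calc m v ^ (n + 2) ≤ |v| ^ (n + 2) := pow_le_pow_left₀ (m_nonneg v) h1 _
      _ = |v| ^ n * |v| * |v| := by ring
      _ ≤ 1 * c * |v| := by
        apply mul_le_mul_of_nonneg_right _ (abs_nonneg v)
        exact mul_le_mul (pow_le_one₀ (abs_nonneg v) h3.le) h2.le (abs_nonneg v) zero_le_one
      _ = c * |v| := by ring
  · rw [m_of_nonneg h.le]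
    have : (fun u => m u ^ (n + 2)) =ᶠ[nhds u] fun u => u ^ (n + 2) := by
      filter_upwards [lt_mem_nhds h] with v hv
      rw [m_of_nonneg hv.le]
    have h2 := (hasDerivAt_pow (n + 2) u).congr_of_eventuallyEq this
    simpa using h2

/-- The profile of a wiggle. -/
noncomputable def psi (t : ℝ) : ℝ := m (1 - t ^ 2) ^ 3
/-- Its first derivative. -/
noncomputable def psi1 (t : ℝ) : ℝ := 3 * m (1 - t ^ 2) ^ 2 * (-2 * t)
/-- Its second derivative. -/
noncomputable def psi2 (t : ℝ) : ℝ :=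
  3 * (2 * m (1 - t ^ 2) * (-2 * t)) * (-2 * t) + 3 * m (1 - t ^ 2) ^ 2 * (-2)

theorem hasDerivAt_inner (t : ℝ) : HasDerivAt (fun t : ℝ => 1 - t ^ 2) (-2 * t) t := by
  have := (hasDerivAt_pow 2 t).const_sub 1
  simpa using this

theorem hasDerivAt_psi (t : ℝ) : HasDerivAt psi (psi1 t) t := by
  have := (hasDerivAt_m_pow 1 (1 - t ^ 2)).comp t (hasDerivAt_inner t)
  have e : psi1 t = ((1 + 2 : ℕ) : ℝ) * m (1 - t ^ 2) ^ (1 + 1) * (-2 * t) := by
    rw [psi1]; norm_num
  rw [e]
  exact this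

theorem hasDerivAt_psi1 (t : ℝ) : HasDerivAt psi1 (psi2 t) t := by
  have h1 := (hasDerivAt_m_pow 0 (1 - t ^ 2)).comp t (hasDerivAt_inner t)
  have h2 := (h1.const_mul 3).mul ((hasDerivAt_id t).const_mul (-2))
  have e : psi2 t = 3 * (((0 + 2 : ℕ) : ℝ) * m (1 - t ^ 2) ^ (0 + 1) * (-2 * t)) * (-2 * t) +
      3 * m (1 - t ^ 2) ^ (0 + 2) * (-2 * 1) := by
    rw [psi2]; norm_num
  rw [e]
  exact h2

theorem psi2_continuous : Continuous psi2 := by
  unfold psi2
  have h : Continuous fun t : ℝ => m (1 - t ^ 2) := m_continuous.comp (by fun_prop)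
  fun_prop

theorem psi_eq_zero {t : ℝ} (h : 1 ≤ |t|) : psi t = 0 := by
  have : 1 ≤ t ^ 2 := by
    rw [← sq_abs]
    nlinarith
  rw [psi, m_of_nonpos (by linarith)]
  norm_num

theorem psi1_eq_zero {t : ℝ} (h : 1 ≤ |t|) : psi1 t = 0 := by
  have : 1 ≤ t ^ 2 := by
    rw [← sq_abs]
    nlinarith
  rw [psi1, m_of_nonpos (by linarith)]
  norm_num

theorem psi_bounds (t : ℝ) : 0 ≤ psi t ∧ psi t ≤ 1 := by
  refine ⟨pow_nonneg (m_nonneg _) _, pow_le_one₀ (m_nonneg _) ?_⟩
  rcases le_total 0 (1 - t ^ 2) with h | h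
  · rw [m_of_nonneg h]; nlinarith [sq_nonneg t]
  · rw [m_of_nonpos h]; norm_num

theorem psi1_bound (t : ℝ) : |psi1 t| ≤ 3 := by
  rcases le_total 0 (1 - t ^ 2) with h | h
  · rw [psi1, m_of_nonneg h]
    have h1 : |t| ≤ 1 := by
      rw [← sq_abs] at h
      nlinarith [abs_nonneg t]
    have h2 : |t| * (1 - t ^ 2) ≤ 1 / 2 := by
      have : 2 * |t| ≤ 1 + t ^ 2 := by
        rw [← sq_abs t]
        nlinarith [sq_nonneg (1 - |t|)]
      nlinarith [mul_nonneg h (sub_nonneg.2 this), sq_nonneg (t ^ 2)]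
    have h3 : |3 * (1 - t ^ 2) ^ 2 * (-2 * t)| = 6 * (|t| * (1 - t ^ 2)) * (1 - t ^ 2) := by
      rw [abs_mul, abs_mul, abs_mul, abs_of_pos (by norm_num : (0 : ℝ) < 3),
        abs_of_nonneg (sq_nonneg (1 - t ^ 2)), abs_neg, abs_of_pos (by norm_num : (0 : ℝ) < 2)]
      ring
    rw [h3]
    nlinarith [mul_nonneg (abs_nonneg t) h, sq_nonneg t]
  · rw [psi1, m_of_nonpos h]
    norm_num

/-! ### The function -/

section

variable (n : ℕ)

/-- Scale of the wiggles. -/
noncomputable def eps : ℝ := 1 / (16 * (n : ℝ) ^ 2)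
/-- Centres of the wiggles. -/
noncomputable def cen (j : ℕ) : ℝ := ((j : ℝ) + 1 / 2) / n

/-- The function. -/
noncomputable def y (x : ℝ) : ℝ :=
  x ^ 2 + ∑ j ∈ Finset.range n, eps n * psi ((x - cen n j) / eps n)
noncomputable def y1 (x : ℝ) : ℝ :=
  2 * x + ∑ j ∈ Finset.range n, psi1 ((x - cen n j) / eps n)
noncomputable def y2 (x : ℝ) : ℝ :=
  2 + ∑ j ∈ Finset.range n, psi2 ((x - cen n j) / eps n) / eps n

variable {n}

theorem eps_pos (hn : 0 < n) : 0 < eps n := by
  have : (0 : ℝ) < n := by exact_mod_cast hn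
  rw [eps]; positivity

theorem hasDerivAt_y (hn : 0 < n) (x : ℝ) : HasDerivAt (y n) (y1 n x) x := by
  have he := (eps_pos hn).ne'
  unfold y y1
  apply HasDerivAt.add
  · simpa using hasDerivAt_pow 2 x
  · apply HasDerivAt.fun_sum
    intro j _
    have h1 : HasDerivAt (fun x => (x - cen n j) / eps n) (1 / eps n) x :=
      ((hasDerivAt_id x).sub_const _).div_const _
    have h2 := ((hasDerivAt_psi ((x - cen n j) / eps n)).comp x h1).const_mul (eps n)
    have e : psi1 ((x - cen n j) / eps n) =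
        eps n * (psi1 ((x - cen n j) / eps n) * (1 / eps n)) := by
      field_simp
    rw [e]
    exact h2

theorem hasDerivAt_y1 (x : ℝ) : HasDerivAt (y1 n) (y2 n x) x := by
  unfold y1 y2
  apply HasDerivAt.add
  · simpa using (hasDerivAt_id x).const_mul 2
  · apply HasDerivAt.fun_sum
    intro j _
    have h1 : HasDerivAt (fun x => (x - cen n j) / eps n) (1 / eps n) x :=
      ((hasDerivAt_id x).sub_const _).div_const _
    have h2 := (hasDerivAt_psi1 ((x - cen n j) / eps n)).comp x h1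
    rw [div_eq_mul_one_div]
    exact h2

theorem y2_continuous : Continuous (y2 n) := by
  unfold y2
  have h := psi2_continuous
  apply continuous_const.add
  apply continuous_finsetSum
  intro j _
  exact (h.comp (by fun_prop)).div_const _

theorem deriv_y (hn : 0 < n) : deriv (y n) = y1 n := funext fun x => (hasDerivAt_y hn x).deriv
theorem deriv_y1 : deriv (y1 n) = y2 n := funext fun x => (hasDerivAt_y1 x).deriv

theorem y_contDiff (hn : 0 < n) : ContDiff ℝ 2 (y n) := by
  have h0 : ContDiff ℝ 0 (y2 n) := contDiff_zero.2 y2_continuous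
  have h1 : ContDiff ℝ 1 (y1 n) := by
    rw [show (1 : WithTop ℕ∞) = 0 + 1 by rfl, contDiff_succ_iff_deriv]
    refine ⟨fun x => (hasDerivAt_y1 x).differentiableAt, by simp, ?_⟩
    rw [deriv_y1]
    exact h0
  rw [show (2 : WithTop ℕ∞) = 1 + 1 by rfl, contDiff_succ_iff_deriv]
  refine ⟨fun x => (hasDerivAt_y hn x).differentiableAt, by simp, ?_⟩
  rw [deriv_y hn]
  exact h1

/-- Points of different zones are at distance at least `1 / (2 n)`. -/
theorem zone_gap (hn : 0 < n) {i j : ℕ} (hij : i < j) {s t : ℝ}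
    (hs : |s - cen n i| < eps n) (ht : |t - cen n j| < eps n) : 1 / (2 * n) < t - s := by
  have hn' : (1 : ℝ) ≤ n := by exact_mod_cast hn
  have h1 : cen n i + 1 / n ≤ cen n j := by
    rw [cen, cen, ← add_div]
    apply div_le_div_of_nonneg_right _ (by linarith)
    have : (i : ℝ) + 1 ≤ j := by exact_mod_cast hij
    linarith
  have h2 : 2 * eps n ≤ 1 / (2 * n) := by
    rw [eps, div_eq_mul_one_div]
    rw [← sub_nonneg]
    have : 1 / (2 * (n : ℝ)) - 2 * (1 / (1 * (16 * (n : ℝ) ^ 2))) =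
        (4 * n - 1) / (8 * (n : ℝ) ^ 2) := by
      field_simp
      ring
    have h3 : 0 ≤ (4 * (n : ℝ) - 1) / (8 * (n : ℝ) ^ 2) := by
      apply div_nonneg
      · linarith
      · positivity
    have e1 : (1 : ℝ) / (16 * (n : ℝ) ^ 2) = 1 / (1 * (16 * (n : ℝ) ^ 2)) := by rw [one_mul]
    linarith
  rw [abs_lt] at hs ht
  have h3 : (1 : ℝ) / n = 1 / (2 * n) + 1 / (2 * n) := by
    field_simp
    norm_num
  linarith [hs.1, hs.2, ht.1, ht.2]

theorem notMem_zone (hn : 0 < n) {i j : ℕ} (hij : i ≠ j) {s : ℝ}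
    (hs : |s - cen n i| < eps n) : eps n ≤ |s - cen n j| := by
  by_contra h
  push Not at h
  have hp : (0 : ℝ) < 1 / (2 * n) := by
    have : (0 : ℝ) < n := by exact_mod_cast hn
    positivity
  rcases lt_or_gt_of_ne hij with h1 | h1
  · have := zone_gap hn h1 hs h
    linarith
  · have := zone_gap hn h1 h hs
    linarith

theorem scaled_ge (hn : 0 < n) {s : ℝ} {j : ℕ} (h : eps n ≤ |s - cen n j|) :
    1 ≤ |(s - cen n j) / eps n| := by
  rw [abs_div, abs_of_pos (eps_pos hn), le_div_iff₀ (eps_pos hn), one_mul]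
  exact h

theorem y_outside (hn : 0 < n) {x : ℝ} (hx : ∀ j < n, eps n ≤ |x - cen n j|) :
    y n x = x ^ 2 ∧ y1 n x = 2 * x := by
  constructor
  · rw [y, Finset.sum_eq_zero, add_zero]
    intro j hj
    rw [psi_eq_zero (scaled_ge hn (hx j (Finset.mem_range.1 hj))), mul_zero]
  · rw [y1, Finset.sum_eq_zero, add_zero]
    intro j hj
    rw [psi1_eq_zero (scaled_ge hn (hx j (Finset.mem_range.1 hj)))]

theorem y_inside (hn : 0 < n) {x : ℝ} {i : ℕ} (hi : i < n) (hx : |x - cen n i| < eps n) :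
    y n x = x ^ 2 + eps n * psi ((x - cen n i) / eps n) ∧
      y1 n x = 2 * x + psi1 ((x - cen n i) / eps n) := by
  constructor
  · rw [y, Finset.sum_eq_single_of_mem i (Finset.mem_range.2 hi)]
    intro j _ hj
    rw [psi_eq_zero (scaled_ge hn (notMem_zone hn hj.symm hx)), mul_zero]
  · rw [y1, Finset.sum_eq_single_of_mem i (Finset.mem_range.2 hi)]
    intro j _ hj
    rw [psi1_eq_zero (scaled_ge hn (notMem_zone hn hj.symm hx))]

theorem eps_le_one (hn : 0 < n) : eps n ≤ 1 := by
  have hn' : (1 : ℝ) ≤ n := by exact_mod_cast hn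
  rw [eps, div_le_one (by positivity)]
  nlinarith

theorem y_bounds (hn : 0 < n) {x : ℝ} (hx : x ∈ Icc (0 : ℝ) 1) : |y n x| ≤ 5 ∧ |y1 n x| ≤ 5 := by
  obtain ⟨h0, h1⟩ := hx
  have hx2 : 0 ≤ x ^ 2 ∧ x ^ 2 ≤ 1 := ⟨sq_nonneg x, by nlinarith⟩
  by_cases h : ∃ i < n, |x - cen n i| < eps n
  · obtain ⟨i, hi, hxi⟩ := h
    obtain ⟨e1, e2⟩ := y_inside hn hi hxi
    rw [e1, e2]
    constructor
    · obtain ⟨p0, p1⟩ := psi_bounds ((x - cen n i) / eps n)
      have e0 := eps_pos hn
      have e1 := eps_le_one hn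
      rw [abs_le]
      constructor
      · nlinarith [mul_nonneg e0.le p0]
      · nlinarith [mul_nonneg e0.le (sub_nonneg.2 p1)]
    · have := abs_le.1 (psi1_bound ((x - cen n i) / eps n))
      rw [abs_le]
      constructor <;> linarith [this.1, this.2]
  · push Not at h
    obtain ⟨e1, e2⟩ := y_outside hn h
    rw [e1, e2, abs_le, abs_le]
    refine ⟨⟨by linarith, by linarith⟩, by linarith, by linarith⟩

theorem cell_integral (hn : 0 < n) {j : ℕ} (hj : j < n) :
    1 ≤ ∫ x in ((j : ℝ) / n)..(((j + 1 : ℕ) : ℝ) / n), |y2 n x| := by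
  have hn' : (1 : ℝ) ≤ n := by exact_mod_cast hn
  have he := eps_pos hn
  have he1 : eps n ≤ 1 / 16 := by
    rw [eps]
    apply one_div_le_one_div_of_le (by norm_num)
    nlinarith
  have he2 : eps n ≤ 1 / 2 / n := by
    rw [eps, div_div]
    apply one_div_le_one_div_of_le (by positivity)
    nlinarith
  have hc1 : (j : ℝ) / n ≤ cen n j := by
    rw [cen]
    apply div_le_div_of_nonneg_right _ (by linarith)
    linarith
  have hc2 : cen n j + eps n / 2 ≤ ((j + 1 : ℕ) : ℝ) / n := by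
    have : ((j + 1 : ℕ) : ℝ) / n = cen n j + 1 / 2 / n := by
      rw [cen]
      push_cast
      field_simp
      ring
    rw [this]
    linarith
  have hcont : Continuous fun x => |y2 n x| := y2_continuous.abs
  have hmono : ∫ x in (cen n j)..(cen n j + eps n / 2), |y2 n x| ≤
      ∫ x in ((j : ℝ) / n)..(((j + 1 : ℕ) : ℝ) / n), |y2 n x| := by
    apply intervalIntegral.integral_mono_interval hc1 (by linarith) hc2
    · exact Filter.Eventually.of_forall fun x => abs_nonneg _
    · exact hcont.intervalIntegrable _ _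
  refine le_trans ?_ hmono
  have hftc : ∫ x in (cen n j)..(cen n j + eps n / 2), y2 n x =
      y1 n (cen n j + eps n / 2) - y1 n (cen n j) :=
    intervalIntegral.integral_eq_sub_of_hasDerivAt (fun x _ => hasDerivAt_y1 x)
      (y2_continuous.intervalIntegrable _ _)
  have h1 : |∫ x in (cen n j)..(cen n j + eps n / 2), y2 n x| ≤
      ∫ x in (cen n j)..(cen n j + eps n / 2), |y2 n x| :=
    intervalIntegral.abs_integral_le_integral_abs (by linarith)
  refine le_trans ?_ h1
  rw [hftc]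
  have ha := (y_inside hn hj (x := cen n j) (by rw [sub_self, abs_zero]; exact he)).2
  have hb := (y_inside hn hj (x := cen n j + eps n / 2) (by
    rw [add_sub_cancel_left, abs_of_pos (by linarith)]; linarith)).2
  rw [ha, hb, sub_self, zero_div, add_sub_cancel_left]
  have e1 : eps n / 2 / eps n = 1 / 2 := by field_simp
  have e2 : psi1 0 = 0 := by simp [psi1]
  have e3 : psi1 (1 / 2) = - (27 / 16) := by
    rw [psi1, m_of_nonneg (by norm_num)]
    norm_num
  rw [e1, e2, e3, le_abs]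
  right
  linarith

theorem total_integral (hn : 0 < n) : (n : ℝ) ≤ ∫ x in (0 : ℝ)..1, |y2 n x| := by
  have hcont : Continuous fun x => |y2 n x| := y2_continuous.abs
  have hn' : (n : ℝ) ≠ 0 := by exact_mod_cast hn.ne'
  have h := intervalIntegral.sum_integral_adjacent_intervals (f := fun x => |y2 n x|)
    (μ := MeasureTheory.volume) (a := fun j : ℕ => (j : ℝ) / n) (n := n)
    (fun k _ => hcont.intervalIntegrable _ _)
  simp only [Nat.cast_zero, zero_div, div_self hn'] at h
  rw [← h]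
  calc (n : ℝ) = ∑ _k ∈ Finset.range n, (1 : ℝ) := by simp
    _ ≤ _ := Finset.sum_le_sum fun k hk => cell_integral hn (Finset.mem_range.1 hk)

/-- No line meets three zones. -/
theorem no_three (hn : 0 < n) (a b : ℝ) {i j k : ℕ} (hij : i < j) (hjk : j < k)
    (hk : k < n) {s₁ s₂ s₃ : ℝ}
    (h₁ : |s₁ - cen n i| < eps n) (h₂ : |s₂ - cen n j| < eps n) (h₃ : |s₃ - cen n k| < eps n)
    (e₁ : y n s₁ = a + b * s₁) (e₂ : y n s₂ = a + b * s₂) (e₃ : y n s₃ = a + b * s₃) : False := by
  have hn' : (1 : ℝ) ≤ n := by exact_mod_cast hn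
  have g1 := zone_gap hn hij h₁ h₂
  have g2 := zone_gap hn hjk h₂ h₃
  have he := eps_pos hn
  rw [(y_inside hn (by omega) h₁).1] at e₁
  rw [(y_inside hn (by omega) h₂).1] at e₂
  rw [(y_inside hn hk h₃).1] at e₃
  obtain ⟨p0, p1⟩ := psi_bounds ((s₁ - cen n i) / eps n)
  obtain ⟨q0, q1⟩ := psi_bounds ((s₂ - cen n j) / eps n)
  obtain ⟨r0, r1⟩ := psi_bounds ((s₃ - cen n k) / eps n)
  set P := psi ((s₁ - cen n i) / eps n)
  set Q := psi ((s₂ - cen n j) / eps n)
  set R := psi ((s₃ - cen n k) / eps n)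
  -- divided difference identity
  have key : (s₂ - s₁) * (s₃ - s₁) * (s₃ - s₂) =
      - ((s₃ - s₂) * (eps n * P) - (s₃ - s₁) * (eps n * Q) + (s₂ - s₁) * (eps n * R)) := by
    linear_combination (s₃ - s₂) * e₁ - (s₃ - s₁) * e₂ + (s₂ - s₁) * e₃
  have hp : (0 : ℝ) < 1 / (2 * n) := by positivity
  have d1 : 0 < s₂ - s₁ := by linarith
  have d2 : 0 < s₃ - s₂ := by linarith
  have d3 : 0 < s₃ - s₁ := by linarith
  have b1 : (s₂ - s₁) * (s₃ - s₁) * (s₃ - s₂) ≤ (s₃ - s₁) * eps n := by
    rw [key]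
    have : 0 ≤ (s₃ - s₂) * (eps n * P) := by positivity
    have : 0 ≤ (s₂ - s₁) * (eps n * R) := by positivity
    have : (s₃ - s₁) * (eps n * Q) ≤ (s₃ - s₁) * eps n := by
      apply mul_le_mul_of_nonneg_left _ d3.le
      nlinarith
    linarith
  have b2 : (s₂ - s₁) * (s₃ - s₂) ≤ eps n := by
    have : (s₃ - s₁) * ((s₂ - s₁) * (s₃ - s₂)) ≤ (s₃ - s₁) * eps n := by
      calc _ = (s₂ - s₁) * (s₃ - s₁) * (s₃ - s₂) := by ring
        _ ≤ _ := b1
    exact le_of_mul_le_mul_left this d3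
  have b3 : 1 / (2 * (n : ℝ)) * (1 / (2 * n)) ≤ (s₂ - s₁) * (s₃ - s₂) :=
    mul_le_mul g1.le g2.le hp.le d1.le
  have b4 : 1 / (2 * (n : ℝ)) * (1 / (2 * n)) = 4 * eps n := by
    rw [eps]
    field_simp
    norm_num
  linarith

/-- The polynomial describing `y n x - a - b x` in zone `j`. -/
noncomputable def zp (n : ℕ) (a b : ℝ) (j : ℕ) : ℝ[X] :=
  X ^ 2 + C (eps n) * (1 - (C (1 / eps n) * (X - C (cen n j))) ^ 2) ^ 3 - C a - C b * X

theorem zp_eval (hn : 0 < n) (a b : ℝ) {j : ℕ} (hj : j < n) {x : ℝ} (hx : |x - cen n j| < eps n)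
    (h : y n x = a + b * x) : (zp n a b j).eval x = 0 := by
  have he := eps_pos hn
  rw [(y_inside hn hj hx).1, psi, m_of_nonneg] at h
  · simp only [zp, eval_sub, eval_add, eval_mul, eval_pow, eval_X, eval_C, eval_one]
    have : 1 / eps n * (x - cen n j) = (x - cen n j) / eps n := by
      field_simp
    rw [this]
    linarith
  · have : |(x - cen n j) / eps n| < 1 := by
      rw [abs_div, abs_of_pos he, div_lt_one he]
      exact hx
    have := (sq_lt_one_iff_abs_lt_one _).2 this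
    linarith

theorem zp_natDegree (a b : ℝ) (j : ℕ) : (zp n a b j).natDegree ≤ 6 := by
  unfold zp
  compute_degree

theorem zp_ne_zero (hn : 0 < n) (a b : ℝ) (j : ℕ) : zp n a b j ≠ 0 := by
  intro h
  have he := eps_pos hn
  -- compare sixth differences: evaluate at `cen + eps * t`
  have hev : ∀ t : ℝ, (cen n j + eps n * t) ^ 2 + eps n * (1 - t ^ 2) ^ 3 - a -
      b * (cen n j + eps n * t) = 0 := by
    intro t
    have := congrArg (fun p : ℝ[X] => p.eval (cen n j + eps n * t)) h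
    simp only [zp, eval_sub, eval_add, eval_mul, eval_pow, eval_X, eval_C, eval_one,
      eval_zero] at this
    have e : 1 / eps n * (cen n j + eps n * t - cen n j) = t := by
      field_simp
      ring
    rw [e] at this
    exact this
  have h0 := hev 0
  have h1 := hev 1
  have h1' := hev (-1)
  have h2 := hev 2
  have h2' := hev (-2)
  have h3 := hev 3
  have h3' := hev (-3)
  have : (h3 : _) = h3 := rfl
  -- sixth difference of a quadratic vanishes, that of `(1 - t^2)^3` is `-720`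
  have key : eps n * (-720) = 0 := by
    linear_combination h3 - 6 * h2 + 15 * h1 - 20 * h0 + 15 * h1' - 6 * h2' + h3'
  linarith

theorem count (hn : 0 < n) (a b : ℝ) :
    {x ∈ Icc (0 : ℝ) 1 | y n x = a + b * x}.Finite ∧
      {x ∈ Icc (0 : ℝ) 1 | y n x = a + b * x}.ncard ≤ 14 := by
  classical
  set S := {x ∈ Icc (0 : ℝ) 1 | y n x = a + b * x} with hS
  set J := (Finset.range n).filter (fun j => ∃ x, |x - cen n j| < eps n ∧ y n x = a + b * x)
    with hJ
  have hJ2 : J.card ≤ 2 := by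
    by_contra hcon
    push Not at hcon
    obtain ⟨i, hi, j, hj, k, hk, hij, hik, hjk⟩ := Finset.two_lt_card.1 hcon
    rw [hJ, Finset.mem_filter, Finset.mem_range] at hi hj hk
    obtain ⟨hi, s, hs, es⟩ := hi
    obtain ⟨hj, t, ht, et⟩ := hj
    obtain ⟨hk, u, hu, eu⟩ := hk
    rcases lt_or_gt_of_ne hij with h1 | h1 <;> rcases lt_or_gt_of_ne hik with h2 | h2 <;>
      rcases lt_or_gt_of_ne hjk with h3 | h3
    · exact no_three hn a b h1 h3 hk hs ht hu es et eu
    · exact no_three hn a b h2 h3 hj hs hu ht es eu et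
    · omega
    · exact no_three hn a b h2 h1 hj hu hs ht eu es et
    · exact no_three hn a b h1 h2 hk ht hs hu et es eu
    · omega
    · exact no_three hn a b h3 h2 hi ht hu hs et eu es
    · exact no_three hn a b h3 h1 hi hu ht hs eu et es
  set q : ℝ[X] := X ^ 2 - C b * X - C a with hq
  have hq2 : q.natDegree ≤ 2 := by
    rw [hq]
    compute_degree
  have hq0 : q ≠ 0 := by
    intro h
    have h0 := congrArg (fun p : ℝ[X] => p.eval 0) h
    have h1 := congrArg (fun p : ℝ[X] => p.eval 1) h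
    have h2 := congrArg (fun p : ℝ[X] => p.eval (-1)) h
    simp [hq] at h0 h1 h2
    linarith
  set F : Finset ℝ := q.roots.toFinset ∪ J.biUnion fun j => (zp n a b j).roots.toFinset with hF
  have hsub : S ⊆ (F : Set ℝ) := by
    intro x hx
    obtain ⟨-, hx⟩ := hx
    rw [Finset.mem_coe, hF, Finset.mem_union, Finset.mem_biUnion]
    by_cases h : ∃ i < n, |x - cen n i| < eps n
    · obtain ⟨i, hi, hxi⟩ := h
      right
      refine ⟨i, ?_, ?_⟩
      · rw [hJ, Finset.mem_filter, Finset.mem_range]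
        exact ⟨hi, x, hxi, hx⟩
      · rw [Multiset.mem_toFinset, mem_roots (zp_ne_zero hn a b i)]
        exact zp_eval hn a b hi hxi hx
    · left
      push Not at h
      rw [(y_outside hn h).1] at hx
      rw [Multiset.mem_toFinset, mem_roots hq0]
      simp only [hq, IsRoot.def, eval_sub, eval_mul, eval_pow, eval_X, eval_C]
      linarith
  have hcard : F.card ≤ 14 := by
    calc F.card ≤ q.roots.toFinset.card + (J.biUnion fun j => (zp n a b j).roots.toFinset).card :=
          Finset.card_union_le _ _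
      _ ≤ 2 + ∑ j ∈ J, 6 := by
          apply add_le_add
          · exact (Multiset.toFinset_card_le _).trans ((card_roots' q).trans hq2)
          · refine Finset.card_biUnion_le.trans (Finset.sum_le_sum fun j _ => ?_)
            exact (Multiset.toFinset_card_le _).trans ((card_roots' _).trans (zp_natDegree a b j))
      _ = 2 + J.card * 6 := by rw [Finset.sum_const, smul_eq_mul]
      _ ≤ 14 := by omega
  refine ⟨F.finite_toSet.subset hsub, ?_⟩
  calc S.ncard ≤ (F : Set ℝ).ncard := ncard_le_ncard hsub F.finite_toSet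
    _ = F.card := ncard_coe_finset F
    _ ≤ 14 := hcard

end

/-- The negated form of the question, with `M = 5` and `N = 15`. -/
theorem result : ∃ M N : ℕ, 0 < M ∧ 0 < N ∧ ∀ K : ℝ, ∃ y : ℝ → ℝ, ContDiff ℝ 2 y ∧
    (∀ x ∈ Icc (0 : ℝ) 1, |y x| ≤ M ∧ |deriv y x| ≤ M) ∧
    K ≤ ∫ x in (0 : ℝ)..1, |deriv (deriv y) x| ∧
    ∀ a b : ℝ, {x ∈ Icc (0 : ℝ) 1 | y x = a + b * x}.Finite ∧
      {x ∈ Icc (0 : ℝ) 1 | y x = a + b * x}.ncard ≤ N - 1 := by
  refine ⟨5, 15, by norm_num, by norm_num, fun K => ?_⟩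
  obtain ⟨k, hk⟩ := exists_nat_ge K
  have hn : 0 < k + 1 := Nat.succ_pos k
  refine ⟨y (k + 1), y_contDiff hn, ?_, ?_, fun a b => count hn a b⟩
  · intro x hx
    rw [deriv_y hn]
    exact_mod_cast y_bounds hn hx
  · rw [deriv_y hn, deriv_y1]
    have := total_integral hn
    push_cast at this
    linarith

end Pool.Agent.Results.MP_d93447_an.ParabolaWiggles
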